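import Mathlib

/-!
# MP_156542_lc: first-order correspondence over full possibility frames

We answer Q1 in the negative, for every nonempty index set `I`: there is a modal formula `φ`
(in one variable and one modality) whose validity on Kripke frames is first-order definable,
while no first-order sentence in the signature of possibility frames defines validity of `φ`
on full possibility frames.

The possibility frame: a copy of the Cantor tree `2^{<ω}` (ordered by extension), discrete worlds
`num u` (one for each node `u`), a hub and a dead end.  The formula says that every nonzero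
proposition `p` inside the tree is properly split by the union of the left halves of the maximal
cones contained in `p`.  On Kripke frames this is impossible (take `p` a singleton); on the
frame above it holds because the prefix order on the nodes is well founded; it fails in an
ultrapower.
-/

namespace Pool.Agent.Results.MP_156542_lc.NoTransfer

open FirstOrder FirstOrder.Language Filter

universe u v

/-! ## The modal language and its two semantics -/

/-- Modal formulas over the index set `I`, with propositional variables indexed by `ℕ`. -/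
inductive Fml (I : Type v) : Type v
  | var : ℕ → Fml I
  | neg : Fml I → Fml I
  | and : Fml I → Fml I → Fml I
  | box : I → Fml I → Fml I

/-- A Kripke frame: a nonempty set with a binary relation for each index. -/
structure KFrame (I : Type v) where
  /-- the worlds -/
  W : Type u
  [nonempty : Nonempty W]
  /-- the accessibility relations -/
  R : I → W → W → Prop

/-- Truth at a world of a Kripke frame under a valuation. -/
def KFrame.Sat {I : Type v} (K : KFrame.{u, v} I) (V : ℕ → Set K.W) : Fml I → K.W → Prop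
  | .var n, x => x ∈ V n
  | .neg φ, x => ¬ K.Sat V φ x
  | .and φ ψ, x => K.Sat V φ x ∧ K.Sat V ψ x
  | .box i φ, x => ∀ y, K.R i x y → K.Sat V φ y

/-- Validity on a Kripke frame. -/
def KFrame.Valid {I : Type v} (K : KFrame.{u, v} I) (φ : Fml I) : Prop :=
  ∀ V : ℕ → Set K.W, ∀ x, K.Sat V φ x

/-- `X` is regular open in the poset `S` (`x ≤ y` means that `x` refines `y`). -/
def RegOpen {S : Type u} [PartialOrder S] (X : Set S) : Prop :=
  ∀ x, x ∈ X ↔ ∀ x' ≤ x, ∃ x'' ≤ x', x'' ∈ X

/-- A full possibility frame: a nonempty poset with a binary relation for each index such that the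
regular open sets are closed under the box operations. -/
structure PFrame (I : Type v) where
  /-- the possibilities -/
  S : Type u
  [nonempty : Nonempty S]
  [order : PartialOrder S]
  /-- the accessibility relations -/
  R : I → S → S → Prop
  full : ∀ i (X : Set S), RegOpen X → RegOpen {x | ∀ y, R i x y → y ∈ X}

attribute [instance] KFrame.nonempty PFrame.nonempty PFrame.order

/-- Forcing at a point of a possibility frame under a valuation. -/
def PFrame.Forces {I : Type v} (F : PFrame.{u, v} I) (V : ℕ → Set F.S) : Fml I → F.S → Prop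
  | .var n, x => x ∈ V n
  | .neg φ, x => ∀ x' ≤ x, ¬ F.Forces V φ x'
  | .and φ ψ, x => F.Forces V φ x ∧ F.Forces V ψ x
  | .box i φ, x => ∀ y, F.R i x y → F.Forces V φ y

/-- Validity on a full possibility frame: forced at every point under every valuation by regular
open sets. -/
def PFrame.Valid {I : Type v} (F : PFrame.{u, v} I) (φ : Fml I) : Prop :=
  ∀ V : ℕ → Set F.S, (∀ n, RegOpen (V n)) → ∀ x, F.Forces V φ x

/-! ## The first-order languages of frames -/

/-- Relation symbols for Kripke frames: one binary symbol for each index. -/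
inductive KRel (I : Type v) : ℕ → Type v
  | r : I → KRel I 2

/-- Relation symbols for possibility frames: the refinement order and one binary symbol for each
index. -/
inductive PRel (I : Type v) : ℕ → Type v
  | le : PRel I 2
  | r : I → PRel I 2

/-- The first-order language of Kripke frames. -/
def kLang (I : Type v) : FirstOrder.Language.{0, v} := ⟨fun _ => Empty, KRel I⟩

/-- The first-order language of possibility frames. -/
def pLang (I : Type v) : FirstOrder.Language.{0, v} := ⟨fun _ => Empty, PRel I⟩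

/-- The interpretation of the relation symbols in a Kripke frame. -/
def KFrame.rel {I : Type v} (K : KFrame.{u, v} I) : ∀ {n : ℕ}, KRel I n → (Fin n → K.W) → Prop
  | _, .r i, x => K.R i (x 0) (x 1)

/-- The interpretation of the relation symbols in a possibility frame. -/
def PFrame.rel {I : Type v} (F : PFrame.{u, v} I) : ∀ {n : ℕ}, PRel I n → (Fin n → F.S) → Prop
  | _, .le, x => x 0 ≤ x 1
  | _, .r i, x => F.R i (x 0) (x 1)

/-- A Kripke frame as a first-order structure. -/
@[instance_reducible] def KFrame.str {I : Type v} (K : KFrame.{u, v} I) : (kLang I).Structure K.W where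
  funMap := fun f => f.elim
  RelMap := fun r x => K.rel r x

/-- A possibility frame as a first-order structure. -/
@[instance_reducible] def PFrame.str {I : Type v} (F : PFrame.{u, v} I) : (pLang I).Structure F.S where
  funMap := fun f => f.elim
  RelMap := fun r x => F.rel r x

/-- A Kripke frame satisfies a first-order sentence. -/
def KFrame.Models {I : Type v} (K : KFrame.{u, v} I) (α : (kLang I).Sentence) : Prop :=
  @FirstOrder.Language.Sentence.Realize (kLang I) K.W K.str α

/-- A possibility frame satisfies a first-order sentence. -/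
def PFrame.Models {I : Type v} (F : PFrame.{u, v} I) (β : (pLang I).Sentence) : Prop :=
  @FirstOrder.Language.Sentence.Realize (pLang I) F.S F.str β

/-! ## The formula -/

section Formula

variable {I : Type v} (i : I)

/-- falsum -/
def bot : Fml I := .and (.var 0) (.neg (.var 0))
/-- diamond -/
def dia (φ : Fml I) : Fml I := .neg (.box i (.neg φ))
/-- the formula true exactly at dead ends -/
def fD : Fml I := .box i bot
/-- the formula describing the index worlds -/
def fN : Fml I := dia i (fD i)
/-- the formula describing the tree -/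
def fA : Fml I := .and (.neg (fD i)) (.and (.neg (fN i)) (dia i (fN i)))
/-- the formula describing the hub -/
def fE : Fml I := .and (.neg (fD i)) (.and (.neg (fN i)) (.neg (dia i (fN i))))
/-- `□ (A → p)` -/
def fQ : Fml I := .box i (.neg (.and (fA i) (.neg (.var 0))))
/-- the index worlds of maximal cones contained in `p` -/
def fM : Fml I := .and (fN i) (.and (fQ i) (.box i (.neg (.and (fN i) (fQ i)))))
/-- the union of the left halves of the maximal cones contained in `p` -/
def fT : Fml I := dia i (fM i)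
/-- the body of the formula -/
def fB : Fml I :=
  .and (dia i (.and (fE i) (dia i (.and (fA i) (.and (.var 0) (fT i))))))
    (dia i (.and (fE i) (dia i (.and (fA i) (.and (.var 0) (.neg (fT i)))))))
/-- the formula -/
def fPhi : Fml I := .neg (.and (fA i) (.and (.var 0) (.neg (fB i))))

end Formula

/-! ## The Kripke side -/

section Kripke

variable {I : Type v} (i : I)

/-- The first-order formula saying that `&n` (the last variable) is a dead end. -/
def oD (n : ℕ) : (kLang I).BoundedFormula Empty (n + 1) :=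
  ∀' ∼ (Relations.boundedFormula₂ (L := kLang I) (KRel.r i : (kLang I).Relations 2)
    (&(Fin.last n).castSucc) (&(Fin.last (n + 1))))

/-- The first-order formula saying that the last variable sees a dead end. -/
def oN (n : ℕ) : (kLang I).BoundedFormula Empty (n + 1) :=
  ∃' ((Relations.boundedFormula₂ (L := kLang I) (KRel.r i : (kLang I).Relations 2)
    (&(Fin.last n).castSucc) (&(Fin.last (n + 1)))) ⊓ oD i (n + 1))

/-- The first-order formula corresponding to `fA`. -/
def oA (n : ℕ) : (kLang I).BoundedFormula Empty (n + 1) :=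
  ∼ (oD i n) ⊓ (∼ (oN i n) ⊓
    ∃' ((Relations.boundedFormula₂ (L := kLang I) (KRel.r i : (kLang I).Relations 2)
      (&(Fin.last n).castSucc) (&(Fin.last (n + 1)))) ⊓ oN i (n + 1)))

/-- The first-order correspondent of `fPhi` over Kripke frames. -/
def oAlpha : (kLang I).Sentence := ∀' ∼ (oA i 0)

/-- dead ends -/
def kD (K : KFrame.{u, v} I) (x : K.W) : Prop := ∀ y, ¬ K.R i x y
/-- worlds seeing a dead end -/
def kN (K : KFrame.{u, v} I) (x : K.W) : Prop := ∃ y, K.R i x y ∧ kD i K y
/-- the extension of `fA` -/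
def kA (K : KFrame.{u, v} I) (x : K.W) : Prop :=
  ¬ kD i K x ∧ ¬ kN i K x ∧ ∃ y, K.R i x y ∧ kN i K y

lemma rel_r (K : KFrame.{u, v} I) (xs : Fin 2 → K.W) :
    @Structure.RelMap _ _ K.str 2 (KRel.r i : (kLang I).Relations 2) xs ↔ K.R i (xs 0) (xs 1) :=
  Iff.rfl

lemma real_D (K : KFrame.{u, v} I) (n : ℕ) (f : Empty → K.W) (xs : Fin (n + 1) → K.W) :
    @BoundedFormula.Realize _ _ K.str _ _ (oD i n) f xs ↔ kD i K (xs (Fin.last n)) := by
  let _ := K.str
  unfold oD kD
  simp only [BoundedFormula.realize_all, BoundedFormula.realize_not, BoundedFormula.realize_rel₂,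
    Term.realize_var, Function.comp, Sum.elim_inr, Fin.snoc_castSucc, Fin.snoc_last]
  exact Iff.rfl

lemma real_N (K : KFrame.{u, v} I) (n : ℕ) (f : Empty → K.W) (xs : Fin (n + 1) → K.W) :
    @BoundedFormula.Realize _ _ K.str _ _ (oN i n) f xs ↔ kN i K (xs (Fin.last n)) := by
  let _ := K.str
  unfold oN kN
  simp only [BoundedFormula.realize_ex, BoundedFormula.realize_inf, BoundedFormula.realize_rel₂,
    Term.realize_var, Function.comp, Sum.elim_inr, Fin.snoc_castSucc, Fin.snoc_last, real_D]
  exact Iff.rfl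

lemma real_A (K : KFrame.{u, v} I) (n : ℕ) (f : Empty → K.W) (xs : Fin (n + 1) → K.W) :
    @BoundedFormula.Realize _ _ K.str _ _ (oA i n) f xs ↔ kA i K (xs (Fin.last n)) := by
  let _ := K.str
  unfold oA kA
  simp only [BoundedFormula.realize_ex, BoundedFormula.realize_inf, BoundedFormula.realize_rel₂,
    BoundedFormula.realize_not, real_N,
    Term.realize_var, Function.comp, Sum.elim_inr, Fin.snoc_castSucc, Fin.snoc_last, real_D]
  exact Iff.rfl

lemma models_alpha (K : KFrame.{u, v} I) : K.Models (oAlpha i) ↔ ∀ x, ¬ kA i K x := by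
  let _ := K.str
  unfold KFrame.Models oAlpha Sentence.Realize Formula.Realize
  simp only [BoundedFormula.realize_all, BoundedFormula.realize_not, real_A, Fin.snoc_last]

lemma sat_D (K : KFrame.{u, v} I) (V : ℕ → Set K.W) (x : K.W) :
    K.Sat V (fD i) x ↔ kD i K x := by
  simp only [fD, bot, KFrame.Sat, kD, and_not_self_iff]

lemma sat_N (K : KFrame.{u, v} I) (V : ℕ → Set K.W) (x : K.W) :
    K.Sat V (fN i) x ↔ kN i K x := by
  simp only [fN, dia, KFrame.Sat, sat_D, kN, not_forall, not_not, exists_prop]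

lemma sat_A (K : KFrame.{u, v} I) (V : ℕ → Set K.W) (x : K.W) :
    K.Sat V (fA i) x ↔ kA i K x := by
  simp only [fA, dia, KFrame.Sat, sat_D, sat_N, kA, not_forall, not_not, exists_prop]

theorem kripke_iff (K : KFrame.{u, v} I) : K.Valid (fPhi i) ↔ K.Models (oAlpha i) := by
  rw [models_alpha]
  constructor
  · intro h x hx
    have h1 := h (fun _ => {x}) x
    simp only [fPhi, fB, dia, KFrame.Sat, sat_A, Set.mem_singleton_iff, not_and, not_not, not_forall,
      exists_prop] at h1
    have h2 := h1 hx trivial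
    obtain ⟨⟨y, -, -, z, -, -, hz, hT⟩, ⟨y', -, -, z', -, -, hz', hT'⟩⟩ := h2
    subst hz
    subst hz'
    exact hT' hT
  · intro h V x
    simp only [fPhi, KFrame.Sat, sat_A]
    intro h1
    exact h x h1.1

end Kripke

/-! ## Possibility frames of the intended shape -/

/-- A description of the intended kind of frame: a tree part `Tr`, a discrete set `Nu` of index
worlds, a hub and a dead end. -/
structure Shape (S : Type u) [PartialOrder S] (R : S → S → Prop) where
  /-- the tree -/
  Tr : S → Prop
  /-- the index worlds -/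
  Nu : S → Prop
  /-- the hub -/
  hub : S
  /-- the dead end -/
  dead : S
  cover : ∀ x, Tr x ∨ Nu x ∨ x = hub ∨ x = dead
  nu_tr : ∀ x, Nu x → ¬ Tr x
  hub_tr : ¬ Tr hub
  hub_nu : ¬ Nu hub
  dead_tr : ¬ Tr dead
  dead_nu : ¬ Nu dead
  tr_ne : ∃ x, Tr x
  tr_down : ∀ x y, Tr x → y ≤ x → Tr y
  disc : ∀ x y, ¬ Tr x → y ≤ x → y = x
  r_dead : ∀ y, ¬ R dead y
  r_hub : ∀ y, R hub y ↔ Tr y
  tr_hub : ∀ x, Tr x → R x hub
  tr_only : ∀ x y, Tr x → R x y → y = hub ∨ Nu y
  tr_nu : ∀ x, Tr x → ∃ y, Nu y ∧ R x y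
  nu_dead : ∀ x, Nu x → R x dead

section ShapeLemmas

variable {I : Type v} {i : I} {F : PFrame.{u, v} I} (sh : Shape F.S (F.R i)) (V : ℕ → Set F.S)

lemma forces_bot (x : F.S) : ¬ F.Forces V bot x := by
  intro h
  exact h.2 x le_rfl h.1

lemma forces_dia (φ : Fml I) (x : F.S) :
    F.Forces V (dia i φ) x ↔ ∀ x' ≤ x, ∃ y, F.R i x' y ∧ ∃ y' ≤ y, F.Forces V φ y' := by
  simp only [dia, PFrame.Forces, not_forall, not_not, exists_prop]

include sh in
lemma forces_D (x : F.S) : F.Forces V (fD i) x ↔ x = sh.dead := by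
  constructor
  · intro h
    have h' : ∀ y, ¬ F.R i x y := fun y hy => forces_bot V y (h y hy)
    rcases sh.cover x with hx | hx | hx | hx
    · exact absurd (sh.tr_hub x hx) (h' _)
    · exact absurd (sh.nu_dead x hx) (h' _)
    · subst hx
      obtain ⟨y, hy⟩ := sh.tr_ne
      exact absurd ((sh.r_hub y).2 hy) (h' _)
    · exact hx
  · rintro rfl y hy
    exact absurd hy (sh.r_dead y)

include sh in
lemma forces_N (x : F.S) : F.Forces V (fN i) x ↔ sh.Nu x := by
  rw [fN, forces_dia]
  constructor
  · intro h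
    obtain ⟨y, hxy, y', hy', hd⟩ := h x le_rfl
    rw [forces_D sh] at hd
    subst hd
    have hy : y = sh.dead := by
      by_cases hy : sh.Tr y
      · exact absurd (sh.tr_down _ _ hy hy') sh.dead_tr
      · exact (sh.disc _ _ hy hy').symm
    subst hy
    rcases sh.cover x with hx | hx | hx | hx
    · rcases sh.tr_only _ _ hx hxy with h1 | h1
      · exact absurd hxy (by
          intro _
          obtain ⟨z, hz⟩ := sh.tr_ne
          have := (sh.r_hub z).2 hz
          rw [← h1] at this
          exact sh.r_dead _ this)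
      · exact absurd h1 sh.dead_nu
    · exact hx
    · subst hx
      exact absurd ((sh.r_hub _).1 hxy) sh.dead_tr
    · subst hx
      exact absurd hxy (sh.r_dead _)
  · intro hx x' hx'
    obtain rfl := sh.disc _ _ (sh.nu_tr _ hx) hx'
    exact ⟨sh.dead, sh.nu_dead _ hx, sh.dead, le_rfl, (forces_D sh V _).2 rfl⟩

include sh in
lemma forces_NN (x : F.S) (hx : sh.Tr x) : F.Forces V (dia i (fN i)) x := by
  rw [forces_dia]
  intro x' hx'
  obtain ⟨y, hy, hxy⟩ := sh.tr_nu x' (sh.tr_down _ _ hx hx')
  exact ⟨y, hxy, y, le_rfl, (forces_N sh V _).2 hy⟩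

include sh in
lemma forces_A (x : F.S) : F.Forces V (fA i) x ↔ sh.Tr x := by
  constructor
  · intro h
    obtain ⟨h1, h2, h3⟩ := h
    rcases sh.cover x with hx | hx | hx | hx
    · exact hx
    · exact absurd ((forces_N sh V _).2 hx) (h2 x le_rfl)
    · subst hx
      rw [forces_dia] at h3
      obtain ⟨y, hxy, y', hy', hN⟩ := h3 _ le_rfl
      rw [forces_N sh] at hN
      exact absurd (sh.tr_down _ _ ((sh.r_hub _).1 hxy) hy') (sh.nu_tr _ hN)
    · subst hx
      exact absurd ((forces_D sh V _).2 rfl) (h1 _ le_rfl)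
  · intro hx
    refine ⟨?_, ?_, forces_NN sh V x hx⟩
    · intro x' hx' h
      rw [forces_D sh] at h
      exact sh.dead_tr (h ▸ sh.tr_down _ _ hx hx')
    · intro x' hx' h
      rw [forces_N sh] at h
      exact sh.nu_tr _ h (sh.tr_down _ _ hx hx')

include sh in
lemma forces_E (x : F.S) : F.Forces V (fE i) x ↔ x = sh.hub := by
  constructor
  · intro h
    obtain ⟨h1, h2, h3⟩ := h
    rcases sh.cover x with hx | hx | hx | hx
    · exact absurd (forces_NN sh V x hx) (h3 x le_rfl)
    · exact absurd ((forces_N sh V _).2 hx) (h2 x le_rfl)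
    · exact hx
    · subst hx
      exact absurd ((forces_D sh V _).2 rfl) (h1 _ le_rfl)
  · rintro rfl
    refine ⟨?_, ?_, ?_⟩
    · intro x' hx' h
      obtain rfl := sh.disc _ _ sh.hub_tr hx'
      rw [forces_D sh] at h
      obtain ⟨z, hz⟩ := sh.tr_ne
      have := (sh.r_hub z).2 hz
      rw [h] at this
      exact sh.r_dead _ this
    · intro x' hx' h
      obtain rfl := sh.disc _ _ sh.hub_tr hx'
      rw [forces_N sh] at h
      exact sh.hub_nu h
    · intro x' hx' h
      obtain rfl := sh.disc _ _ sh.hub_tr hx'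
      rw [forces_dia] at h
      obtain ⟨y, hxy, y', hy', hN⟩ := h _ le_rfl
      rw [forces_N sh] at hN
      exact absurd (sh.tr_down _ _ ((sh.r_hub _).1 hxy) hy') (sh.nu_tr _ hN)

lemma RegOpen.down {S : Type u} [PartialOrder S] {X : Set S} (hX : RegOpen X) {x y : S}
    (hx : x ∈ X) (hy : y ≤ x) : y ∈ X :=
  (hX y).2 fun x' hx' => (hX x).1 hx x' (hx'.trans hy)

/-- the extension of `fQ` -/
def Shape.Q {S : Type u} [PartialOrder S] {R : S → S → Prop} (sh : Shape S R) (P : Set S)
    (x : S) : Prop := ∀ y, R x y → sh.Tr y → y ∈ P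

/-- the extension of `fM` -/
def Shape.M {S : Type u} [PartialOrder S] {R : S → S → Prop} (sh : Shape S R) (P : Set S)
    (x : S) : Prop := sh.Nu x ∧ sh.Q P x ∧ ∀ y, R x y → sh.Nu y → ¬ sh.Q P y

/-- the extension of `fT` -/
def Shape.T {S : Type u} [PartialOrder S] {R : S → S → Prop} (sh : Shape S R) (P : Set S)
    (x : S) : Prop := ∀ x' ≤ x, ∃ y, R x' y ∧ sh.M P y

lemma forces_Q (hV : RegOpen (V 0)) (x : F.S) : F.Forces V (fQ i) x ↔ sh.Q (V 0) x := by
  constructor
  · intro h y hxy hy
    refine (hV y).2 fun y' hy' => ?_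
    have h1 := h y hxy y' hy'
    have h2 : F.Forces V (fA i) y' := (forces_A sh V _).2 (sh.tr_down _ _ hy hy')
    by_contra hcon
    push Not at hcon
    exact h1 ⟨h2, fun z hz => hcon z hz⟩
  · intro h y hxy y' hy' h1
    have h2 : sh.Tr y' := (forces_A sh V _).1 h1.1
    have h3 : sh.Tr y := by
      by_contra hy
      obtain rfl := sh.disc _ _ hy hy'
      exact hy h2
    exact h1.2 y' le_rfl (hV.down (h y hxy h3) hy')

lemma forces_M (hV : RegOpen (V 0)) (x : F.S) : F.Forces V (fM i) x ↔ sh.M (V 0) x := by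
  constructor
  · intro h
    refine ⟨(forces_N sh V _).1 h.1, (forces_Q sh V hV _).1 h.2.1, fun y hxy hy hq => ?_⟩
    exact h.2.2 y hxy y le_rfl ⟨(forces_N sh V _).2 hy, (forces_Q sh V hV _).2 hq⟩
  · intro h
    refine ⟨(forces_N sh V _).2 h.1, (forces_Q sh V hV _).2 h.2.1, fun y hxy y' hy' h' => ?_⟩
    have hN : sh.Nu y' := (forces_N sh V _).1 h'.1
    have hy : ¬ sh.Tr y := fun hy => sh.nu_tr _ hN (sh.tr_down _ _ hy hy')
    obtain rfl := sh.disc _ _ hy hy'
    exact h.2.2 _ hxy hN ((forces_Q sh V hV _).1 h'.2)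

lemma forces_T (hV : RegOpen (V 0)) (x : F.S) : F.Forces V (fT i) x ↔ sh.T (V 0) x := by
  rw [fT, forces_dia]
  constructor
  · intro h x' hx'
    obtain ⟨y, hxy, y', hy', hM⟩ := h x' hx'
    rw [forces_M sh V hV] at hM
    have hy : ¬ sh.Tr y := fun hy => sh.nu_tr _ hM.1 (sh.tr_down _ _ hy hy')
    obtain rfl := sh.disc _ _ hy hy'
    exact ⟨_, hxy, hM⟩
  · intro h x' hx'
    obtain ⟨y, hxy, hM⟩ := h x' hx'
    exact ⟨y, hxy, y, le_rfl, (forces_M sh V hV _).2 hM⟩

/-- The condition expressed by the formula. -/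
def Shape.Good {S : Type u} [PartialOrder S] {R : S → S → Prop} (sh : Shape S R) : Prop :=
  ∀ P : Set S, RegOpen P → (∃ x ∈ P, sh.Tr x) →
    (∃ y ∈ P, sh.Tr y ∧ sh.T P y) ∧ (∃ y ∈ P, sh.Tr y ∧ ∀ y' ≤ y, ¬ sh.T P y')

lemma valid_of_good (hg : sh.Good) : F.Valid (fPhi i) := by
  intro V hV x x' hx' h
  obtain ⟨hA, hp, hB⟩ := h
  have hTr := (forces_A sh V _).1 hA
  obtain ⟨⟨y, hy1, hy2, hy3⟩, ⟨z, hz1, hz2, hz3⟩⟩ := hg (V 0) (hV 0) ⟨x', hp, hTr⟩
  refine hB x' le_rfl ⟨?_, ?_⟩
  · rw [forces_dia]
    intro w hw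
    refine ⟨sh.hub, sh.tr_hub _ (sh.tr_down _ _ hTr hw), sh.hub, le_rfl,
      (forces_E sh V _).2 rfl, ?_⟩
    rw [forces_dia]
    intro w' hw'
    obtain rfl := sh.disc _ _ sh.hub_tr hw'
    exact ⟨y, (sh.r_hub _).2 hy2, y, le_rfl, (forces_A sh V _).2 hy2, hy1,
      (forces_T sh V (hV 0) _).2 hy3⟩
  · rw [forces_dia]
    intro w hw
    refine ⟨sh.hub, sh.tr_hub _ (sh.tr_down _ _ hTr hw), sh.hub, le_rfl,
      (forces_E sh V _).2 rfl, ?_⟩
    rw [forces_dia]
    intro w' hw'
    obtain rfl := sh.disc _ _ sh.hub_tr hw'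
    exact ⟨z, (sh.r_hub _).2 hz2, z, le_rfl, (forces_A sh V _).2 hz2, hz1,
      fun z' hz' h => hz3 z' hz' ((forces_T sh V (hV 0) _).1 h)⟩

lemma exists_T_of_valid (hval : F.Valid (fPhi i)) (P : Set F.S) (hP : RegOpen P)
    (hne : ∃ x ∈ P, sh.Tr x) : ∃ y, sh.T P y := by
  obtain ⟨x, hx, hTr⟩ := hne
  have h := hval (fun _ => P) (fun _ => hP) x x le_rfl
  have h' : ¬ F.Forces (fun _ => P) (.neg (fB i)) x := fun hB =>
    h ⟨(forces_A sh _ _).2 hTr, hx, hB⟩
  simp only [PFrame.Forces, not_forall, not_not, exists_prop] at h'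
  obtain ⟨x', hx', hB⟩ := h'
  have h1 := hB.1
  rw [forces_dia] at h1
  obtain ⟨y, hy, y', hy', hE⟩ := h1 x' le_rfl
  have h2 := hE.2
  rw [forces_dia] at h2
  obtain ⟨z, hz, z', hz', hT⟩ := h2 y' le_rfl
  exact ⟨z', (forces_T sh _ hP _).1 hT.2.2⟩

end ShapeLemmas

/-- A sufficient condition for the regular open sets to be closed under the box operation. -/
lemma full_of {S : Type u} [PartialOrder S] {R : S → S → Prop}
    (c1 : ∀ x x' y, x' ≤ x → R x' y → R x y)
    (c2 : ∀ x y y', R x y → y' ≤ y → ∃ x' ≤ x, ∀ x'' ≤ x', ∃ z, R x'' z ∧ ∃ w, w ≤ z ∧ w ≤ y')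
    (X : Set S) (hX : RegOpen X) : RegOpen {x | ∀ y, R x y → y ∈ X} := by
  intro x
  constructor
  · intro h x' hx'
    exact ⟨x', le_rfl, fun y hy => h y (c1 _ _ _ hx' hy)⟩
  · intro h y hxy
    by_contra hy
    rw [hX y] at hy
    push Not at hy
    obtain ⟨y', hy', hy''⟩ := hy
    obtain ⟨x', hx', h2⟩ := c2 x y y' hxy hy'
    obtain ⟨x'', hx'', h3⟩ := h x' hx'
    obtain ⟨z, hz, w, hw1, hw2⟩ := h2 x'' hx''
    exact hy'' w hw2 (hX.down (h3 z hz) hw1)

/-! ## The base frame -/

/-- The points of the base frame. -/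
inductive World : Type u
  | tree : List Bool → World
  | num : List Bool → World
  | hub : World
  | dead : World

namespace World

/-- refinement: extension of nodes in the tree, equality elsewhere -/
def le : World.{u} → World.{u} → Prop
  | .tree a, .tree b => b <+: a
  | .num a, .num b => a = b
  | .hub, .hub => True
  | .dead, .dead => True
  | _, _ => False

instance : PartialOrder World.{u} where
  le := le
  le_refl x := by cases x <;> simp [le]
  le_trans x y z := by
    cases x <;> cases y <;> cases z <;> simp only [le] <;> intro h1 h2 <;>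
      first
        | exact h2.trans h1
        | exact h1.trans h2
        | exact h1.elim
        | exact h2.elim
        | trivial
  le_antisymm x y := by
    cases x <;> cases y <;> simp only [le] <;> intro h1 h2 <;>
      first
        | exact h1.elim
        | exact h2.elim
        | (rw [h1])
        | rfl
        | trivial
        | (exact congrArg _ (antisymm h2 h1))

/-- accessibility -/
def rel : World.{u} → World.{u} → Prop
  | .tree a, .num b => b ++ [false] <+: a ∨ a <+: b ++ [false]
  | .tree _, .hub => True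
  | .num a, .tree b => a <+: b
  | .num a, .num b => b <+: a ∧ b ≠ a
  | .num _, .dead => True
  | .hub, .tree _ => True
  | _, _ => False

lemma tree_le {a b : List Bool} : (tree a : World.{u}) ≤ tree b ↔ b <+: a := Iff.rfl

/-- tree points -/
def isTr : World.{u} → Prop
  | .tree _ => True
  | _ => False

/-- index points -/
def isNu : World.{u} → Prop
  | .num _ => True
  | _ => False

lemma le_cases {x y : World.{u}} (h : y ≤ x) : (∃ a b, x = tree a ∧ y = tree b ∧ a <+: b) ∨
    (¬ isTr x ∧ y = x) := by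
  change le y x at h
  cases x <;> cases y <;> simp_all [le, isTr]

lemma c1 (x x' y : World.{u}) (h : x' ≤ x) (hr : rel x' y) : rel x y := by
  rcases le_cases h with ⟨a, b, rfl, rfl, hab⟩ | ⟨-, rfl⟩
  · cases y <;> simp only [rel] at hr ⊢
    rename_i c
    rcases hr with hr | hr
    · exact (List.prefix_or_prefix_of_prefix hab hr).symm
    · exact Or.inr (hab.trans hr)
  · exact hr

lemma c2 (x y y' : World.{u}) (hr : rel x y) (hy : y' ≤ y) :
    ∃ x' ≤ x, ∀ x'' ≤ x', ∃ z, rel x'' z ∧ ∃ w, w ≤ z ∧ w ≤ y' := by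
  cases x with
  | tree a =>
    cases y with
    | tree b => exact hr.elim
    | num b =>
      have hy' : y' = num b := by
        rcases le_cases hy with ⟨_, _, h, _⟩ | ⟨-, h⟩
        · cases h
        · exact h
      subst hy'
      have key : ∀ c, b ++ [false] <+: c → ∀ x'' ≤ (tree c : World.{u}),
          ∃ z, rel x'' z ∧ ∃ w, w ≤ z ∧ w ≤ (num b : World.{u}) := by
        intro c hc x'' hx''
        rcases le_cases hx'' with ⟨a', b', h1, h2, h3⟩ | ⟨h, -⟩
        · cases h1
          subst h2
          exact ⟨num b, Or.inl (hc.trans h3), num b, le_rfl, le_rfl⟩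
        · exact absurd trivial h
      rcases hr with hr | hr
      · exact ⟨tree a, le_rfl, key a hr⟩
      · exact ⟨tree (b ++ [false]), hr, key _ (List.prefix_refl _)⟩
    | hub =>
      refine ⟨tree a, le_rfl, fun x'' hx'' => ⟨hub, ?_, y', hy, le_rfl⟩⟩
      rcases le_cases hx'' with ⟨_, b', _, h2, _⟩ | ⟨h, -⟩
      · subst h2; trivial
      · exact absurd trivial h
    | dead => exact hr.elim
  | num a =>
    refine ⟨num a, le_rfl, fun x'' hx'' => ⟨y, ?_, y', hy, le_rfl⟩⟩
    rcases le_cases hx'' with ⟨_, _, h, _⟩ | ⟨-, h⟩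
    · cases h
    · rw [h]; exact hr
  | hub =>
    refine ⟨hub, le_rfl, fun x'' hx'' => ⟨y, ?_, y', hy, le_rfl⟩⟩
    rcases le_cases hx'' with ⟨_, _, h, _⟩ | ⟨-, h⟩
    · cases h
    · rw [h]; exact hr
  | dead =>
    cases y <;> exact hr.elim

/-- the shape of the base frame -/
def shape : Shape World.{u} rel where
  Tr := isTr
  Nu := isNu
  hub := hub
  dead := dead
  cover x := by cases x <;> simp [isTr, isNu]
  nu_tr x := by cases x <;> simp [isTr, isNu]
  hub_tr := by simp [isTr]
  hub_nu := by simp [isNu]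
  dead_tr := by simp [isTr]
  dead_nu := by simp [isNu]
  tr_ne := ⟨tree [], trivial⟩
  tr_down x y hx h := by
    rcases le_cases h with ⟨_, _, _, h, _⟩ | ⟨-, h⟩
    · rw [h]; trivial
    · rw [h]; exact hx
  disc x y hx h := by
    rcases le_cases h with ⟨_, _, h, _, _⟩ | ⟨-, h⟩
    · rw [h] at hx; exact absurd trivial hx
    · exact h
  r_dead y := by cases y <;> simp [rel]
  r_hub y := by cases y <;> simp [rel, isTr]
  tr_hub x := by cases x <;> simp [rel, isTr]
  tr_only x y := by cases x <;> cases y <;> simp [rel, isTr, isNu]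
  tr_nu x hx := by
    cases x with
    | tree a =>
      exact ⟨num a, trivial, Or.inr (List.prefix_append _ _)⟩
    | num a => exact hx.elim
    | hub => exact hx.elim
    | dead => exact hx.elim
  nu_dead x := by cases x <;> simp [rel, isNu]

/-- The combinatorial heart: in the base frame every nonzero proposition in the tree is properly
split by the left halves of its maximal cones. -/
lemma good : shape.{u}.Good := by
  intro P hP hne
  obtain ⟨x, hx, hTr⟩ := hne
  cases x with
  | num a => exact hTr.elim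
  | hub => exact hTr.elim
  | dead => exact hTr.elim
  | tree l =>
  -- a minimal prefix of `l` in `P`
  have hex : ∃ n : ℕ, ∃ w : List Bool, w.length = n ∧ w <+: l ∧ tree w ∈ P :=
    ⟨l.length, l, rfl, List.prefix_refl _, hx⟩
  classical
  obtain ⟨w, hwn, hwl, hwP⟩ := Nat.find_spec hex
  have hmin : ∀ v, v <+: w → v ≠ w → tree v ∉ P := by
    intro v hv hne hvP
    have hlt : v.length < w.length := by
      rcases Nat.lt_or_ge v.length w.length with h | h
      · exact h
      · exact absurd (hv.eq_of_length (le_antisymm hv.length_le h)) hne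
    exact Nat.find_min hex (hwn ▸ hlt) ⟨v, rfl, hv.trans hwl, hvP⟩
  have hQ : ∀ v, shape.Q P (num v) ↔ tree v ∈ P := by
    intro v
    constructor
    · intro h
      exact h (tree v) (List.prefix_refl _) trivial
    · intro h y hy hyt
      cases y with
      | tree a => exact hP.down h hy
      | num a => exact hyt.elim
      | hub => exact hyt.elim
      | dead => exact hyt.elim
  have hM : shape.M P (num w) := by
    refine ⟨trivial, (hQ w).2 hwP, ?_⟩
    intro y hy hyn
    cases y with
    | num v =>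
      rw [hQ v]
      exact hmin v hy.1 hy.2
    | tree a => exact hyn.elim
    | hub => exact hyn.elim
    | dead => exact hyn.elim
  refine ⟨⟨tree (w ++ [false]), hP.down hwP (List.prefix_append _ _), trivial, ?_⟩,
    ⟨tree (w ++ [true]), hP.down hwP (List.prefix_append _ _), trivial, ?_⟩⟩
  · intro x' hx'
    rcases le_cases hx' with ⟨_, b, h1, h2, h3⟩ | ⟨h, -⟩
    · cases h1
      subst h2
      exact ⟨num w, Or.inl h3, hM⟩
    · exact absurd trivial h
  · intro y' hy' hT
    rcases le_cases hy' with ⟨_, b, h1, h2, h3⟩ | ⟨h, -⟩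
    · cases h1
      subst h2
      obtain ⟨z, hz, hzM⟩ := hT _ le_rfl
      cases z with
      | tree a => exact hzM.1.elim
      | hub => exact hzM.1.elim
      | dead => exact hzM.1.elim
      | num v =>
        have hvP : tree v ∈ P := (hQ v).1 hzM.2.1
        have hvmin : ∀ v', v' <+: v → v' ≠ v → tree v' ∉ P := by
          intro v' h1 h2 h3
          exact hzM.2.2 (num v') ⟨h1, h2⟩ trivial ((hQ v').2 h3)
        -- `w` and `v` are comparable, hence equal
        have hcmp : w <+: v ++ [false] ∨ v ++ [false] <+: w ++ [true] := by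
          rcases hz with hz | hz
          · rcases List.prefix_or_prefix_of_prefix h3 hz with h | h
            · exact Or.inl ((List.prefix_append _ _).trans h)
            · exact Or.inr h
          · exact Or.inl ((List.prefix_append _ _).trans (h3.trans hz))
        have hcases : w <+: v ∨ v <+: w := by
          rcases hcmp with h | h
          · exact List.prefix_or_prefix_of_prefix h (List.prefix_append _ _)
          · exact (List.prefix_or_prefix_of_prefix ((List.prefix_append _ _).trans h)
              (List.prefix_append _ _)).symm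
        have heq : w = v := by
          by_contra hne
          rcases hcases with h | h
          · exact hvmin w h hne hwP
          · exact hmin v h (Ne.symm hne) hvP
        subst heq
        rcases hz with hz | hz
        · rcases List.prefix_or_prefix_of_prefix h3 hz with h | h
          · have := h.eq_of_length (by simp)
            simp at this
          · have := h.eq_of_length (by simp)
            simp at this
        · have := (h3.trans hz).eq_of_length (by simp)
          simp at this
    · exact absurd trivial h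

end World

/-- The base frame. -/
def baseF (I : Type v) : PFrame.{u, v} I where
  S := World
  nonempty := ⟨World.hub⟩
  R := fun _ => World.rel
  full := fun _ X hX => full_of World.c1 World.c2 X hX

/-! ## The ultrapower -/

/-- The ultrafilter. -/
noncomputable abbrev UF : Ultrafilter ℕ := hyperfilter ℕ

/-- The carrier of the ultrapower. -/
abbrev Star : Type u := (UF : Filter ℕ).Product (fun _ => World.{u})

/-- The class of a sequence. -/
noncomputable abbrev mk (f : ℕ → World.{u}) : Star.{u} := Quotient.mk _ f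

lemma mk_surj (X : Star.{u}) : ∃ f, mk f = X := Quotient.exists_rep X

lemma mk_eq {f g : ℕ → World.{u}} : mk f = mk g ↔ ∀ᶠ a in (UF : Filter ℕ), f a = g a :=
  Quotient.eq

/-- the lift of a binary relation -/
def lift2 (r : World.{u} → World.{u} → Prop) (X Y : Star.{u}) : Prop :=
  ∃ f g, mk f = X ∧ mk g = Y ∧ ∀ᶠ a in (UF : Filter ℕ), r (f a) (g a)

/-- the lift of a predicate -/
def lift1 (p : World.{u} → Prop) (X : Star.{u}) : Prop :=
  ∃ f, mk f = X ∧ ∀ᶠ a in (UF : Filter ℕ), p (f a)

lemma lift2_mk (r : World.{u} → World.{u} → Prop) (f g : ℕ → World.{u}) :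
    lift2 r (mk f) (mk g) ↔ ∀ᶠ a in (UF : Filter ℕ), r (f a) (g a) := by
  constructor
  · rintro ⟨f', g', hf, hg, h⟩
    filter_upwards [mk_eq.1 hf, mk_eq.1 hg, h] with a h1 h2 h3
    rw [← h1, ← h2]
    exact h3
  · intro h
    exact ⟨f, g, rfl, rfl, h⟩

lemma lift1_mk (p : World.{u} → Prop) (f : ℕ → World.{u}) :
    lift1 p (mk f) ↔ ∀ᶠ a in (UF : Filter ℕ), p (f a) := by
  constructor
  · rintro ⟨f', hf, h⟩
    filter_upwards [mk_eq.1 hf, h] with a h1 h3
    rw [← h1]
    exact h3
  · intro h
    exact ⟨f, rfl, h⟩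

noncomputable instance : PartialOrder Star.{u} where
  le := lift2 (· ≤ ·)
  le_refl X := by
    obtain ⟨f, rfl⟩ := mk_surj X
    exact (lift2_mk _ _ _).2 (Eventually.of_forall fun a => le_rfl)
  le_trans X Y Z h1 h2 := by
    obtain ⟨f, rfl⟩ := mk_surj X
    obtain ⟨g, rfl⟩ := mk_surj Y
    obtain ⟨h, rfl⟩ := mk_surj Z
    rw [lift2_mk] at h1 h2 ⊢
    filter_upwards [h1, h2] with a ha hb
    exact ha.trans hb
  le_antisymm X Y h1 h2 := by
    obtain ⟨f, rfl⟩ := mk_surj X
    obtain ⟨g, rfl⟩ := mk_surj Y
    rw [lift2_mk] at h1 h2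
    rw [mk_eq]
    filter_upwards [h1, h2] with a ha hb
    exact le_antisymm ha hb

lemma mk_le (f g : ℕ → World.{u}) :
    mk f ≤ mk g ↔ ∀ᶠ a in (UF : Filter ℕ), f a ≤ g a := lift2_mk _ _ _

/-- accessibility in the ultrapower -/
def srel : Star.{u} → Star.{u} → Prop := lift2 World.rel

lemma srel_mk (f g : ℕ → World.{u}) :
    srel (mk f) (mk g) ↔ ∀ᶠ a in (UF : Filter ℕ), World.rel (f a) (g a) := lift2_mk _ _ _

lemma s1 (x x' y : Star.{u}) (h : x' ≤ x) (hr : srel x' y) : srel x y := by
  obtain ⟨f, rfl⟩ := mk_surj x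
  obtain ⟨f', rfl⟩ := mk_surj x'
  obtain ⟨g, rfl⟩ := mk_surj y
  rw [srel_mk] at hr ⊢
  rw [mk_le] at h
  filter_upwards [h, hr] with a h1 h2
  exact World.c1 _ _ _ h1 h2

lemma s2 (x y y' : Star.{u}) (hr : srel x y) (hy : y' ≤ y) :
    ∃ x' ≤ x, ∀ x'' ≤ x', ∃ z, srel x'' z ∧ ∃ w, w ≤ z ∧ w ≤ y' := by
  obtain ⟨f, rfl⟩ := mk_surj x
  obtain ⟨g, rfl⟩ := mk_surj y
  obtain ⟨g', rfl⟩ := mk_surj y'
  rw [srel_mk] at hr
  rw [mk_le] at hy
  have h1 : ∀ᶠ a in (UF : Filter ℕ), ∃ x', x' ≤ f a ∧
      ∀ x'' ≤ x', ∃ z, World.rel x'' z ∧ ∃ w, w ≤ z ∧ w ≤ g' a := by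
    filter_upwards [hr, hy] with a h1 h2
    exact World.c2 _ _ _ h1 h2
  obtain ⟨s, hs⟩ := h1.choice
  refine ⟨mk s, (mk_le _ _).2 (hs.mono fun a h => h.1), fun x'' hx'' => ?_⟩
  obtain ⟨h, rfl⟩ := mk_surj x''
  rw [mk_le] at hx''
  have h2 : ∀ᶠ a in (UF : Filter ℕ), ∃ z : World.{u} × World.{u},
      World.rel (h a) z.1 ∧ z.2 ≤ z.1 ∧ z.2 ≤ g' a := by
    filter_upwards [hs, hx''] with a h1 h2
    obtain ⟨z, hz, w, hw1, hw2⟩ := h1.2 _ h2
    exact ⟨(z, w), hz, hw1, hw2⟩
  obtain ⟨t, ht⟩ := h2.choice
  refine ⟨mk fun a => (t a).1, (srel_mk _ _).2 (ht.mono fun a h => h.1),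
    mk fun a => (t a).2, (mk_le _ _).2 (ht.mono fun a h => h.2.1),
    (mk_le _ _).2 (ht.mono fun a h => h.2.2)⟩

/-- The ultrapower as a full possibility frame. -/
noncomputable def starF (I : Type v) : PFrame.{u, v} I where
  S := Star
  nonempty := ⟨mk fun _ => World.hub⟩
  R := fun _ => srel
  full := fun _ X hX => full_of s1 s2 X hX

/-- The shape of the ultrapower. -/
noncomputable def starShape : Shape Star.{u} srel where
  Tr := lift1 World.isTr
  Nu := lift1 World.isNu
  hub := mk fun _ => .hub
  dead := mk fun _ => .dead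
  cover X := by
    obtain ⟨f, rfl⟩ := mk_surj X
    rw [lift1_mk, lift1_mk, mk_eq, mk_eq, ← Ultrafilter.eventually_or, ← Ultrafilter.eventually_or,
      ← Ultrafilter.eventually_or]
    exact Eventually.of_forall fun a => World.shape.{u}.cover (f a)
  nu_tr X h1 h2 := by
    obtain ⟨f, rfl⟩ := mk_surj X
    rw [lift1_mk] at h1 h2
    obtain ⟨a, ha, hb⟩ := (h1.and h2).exists
    exact World.shape.{u}.nu_tr _ ha hb
  hub_tr h := by
    rw [lift1_mk] at h
    obtain ⟨a, ha⟩ := h.exists
    exact World.shape.{u}.hub_tr ha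
  hub_nu h := by
    rw [lift1_mk] at h
    obtain ⟨a, ha⟩ := h.exists
    exact World.shape.{u}.hub_nu ha
  dead_tr h := by
    rw [lift1_mk] at h
    obtain ⟨a, ha⟩ := h.exists
    exact World.shape.{u}.dead_tr ha
  dead_nu h := by
    rw [lift1_mk] at h
    obtain ⟨a, ha⟩ := h.exists
    exact World.shape.{u}.dead_nu ha
  tr_ne := ⟨mk fun _ => .tree [], (lift1_mk _ _).2 (Eventually.of_forall fun _ => trivial)⟩
  tr_down X Y h1 h2 := by
    obtain ⟨f, rfl⟩ := mk_surj X
    obtain ⟨g, rfl⟩ := mk_surj Y
    rw [lift1_mk] at h1 ⊢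
    rw [mk_le] at h2
    filter_upwards [h1, h2] with a ha hb
    exact World.shape.{u}.tr_down _ _ ha hb
  disc X Y h1 h2 := by
    obtain ⟨f, rfl⟩ := mk_surj X
    obtain ⟨g, rfl⟩ := mk_surj Y
    rw [lift1_mk, ← Ultrafilter.eventually_not] at h1
    rw [mk_le] at h2
    rw [mk_eq]
    filter_upwards [h1, h2] with a ha hb
    exact World.shape.{u}.disc _ _ ha hb
  r_dead Y h := by
    obtain ⟨g, rfl⟩ := mk_surj Y
    rw [srel_mk] at h
    obtain ⟨a, ha⟩ := h.exists
    exact World.shape.{u}.r_dead _ ha
  r_hub Y := by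
    obtain ⟨g, rfl⟩ := mk_surj Y
    rw [srel_mk, lift1_mk]
    exact eventually_congr (Eventually.of_forall fun a => World.shape.{u}.r_hub _)
  tr_hub X h := by
    obtain ⟨f, rfl⟩ := mk_surj X
    rw [lift1_mk] at h
    rw [srel_mk]
    exact h.mono fun a ha => World.shape.{u}.tr_hub _ ha
  tr_only X Y h1 h2 := by
    obtain ⟨f, rfl⟩ := mk_surj X
    obtain ⟨g, rfl⟩ := mk_surj Y
    rw [lift1_mk] at h1
    rw [srel_mk] at h2
    rw [lift1_mk, mk_eq, ← Ultrafilter.eventually_or]
    filter_upwards [h1, h2] with a ha hb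
    exact World.shape.{u}.tr_only _ _ ha hb
  tr_nu X h := by
    obtain ⟨f, rfl⟩ := mk_surj X
    rw [lift1_mk] at h
    have h1 : ∀ᶠ a in (UF : Filter ℕ), ∃ y, World.isNu y ∧ World.rel (f a) y :=
      h.mono fun a ha => World.shape.{u}.tr_nu _ ha
    obtain ⟨s, hs⟩ := h1.choice
    exact ⟨mk s, (lift1_mk _ _).2 (hs.mono fun a h => h.1),
      (srel_mk _ _).2 (hs.mono fun a h => h.2)⟩
  nu_dead X h := by
    obtain ⟨f, rfl⟩ := mk_surj X
    rw [lift1_mk] at h
    rw [srel_mk]
    exact h.mono fun a ha => World.shape.{u}.nu_dead _ ha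

/-- The bad proposition: the union of the cones below `0^{N-k}`, `k` standard. -/
def badP : Set Star.{u} := {Y | ∃ k : ℕ, Y ≤ mk fun a => .tree (List.replicate (a - k) false)}

lemma mk_of_isTr {g : ℕ → World.{u}} (h : ∀ᶠ a in (UF : Filter ℕ), World.isTr (g a)) :
    ∃ l : ℕ → List Bool, mk g = mk fun a => .tree (l a) := by
  have h1 : ∀ᶠ a in (UF : Filter ℕ), ∃ l, g a = .tree l := by
    filter_upwards [h] with a ha
    cases hg : g a with
    | tree l => exact ⟨l, rfl⟩
    | num l => rw [hg] at ha; exact ha.elim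
    | hub => rw [hg] at ha; exact ha.elim
    | dead => rw [hg] at ha; exact ha.elim
  obtain ⟨l, hl⟩ := h1.choice
  exact ⟨l, mk_eq.2 hl⟩

lemma mk_of_isNu {g : ℕ → World.{u}} (h : ∀ᶠ a in (UF : Filter ℕ), World.isNu (g a)) :
    ∃ l : ℕ → List Bool, mk g = mk fun a => .num (l a) := by
  have h1 : ∀ᶠ a in (UF : Filter ℕ), ∃ l, g a = .num l := by
    filter_upwards [h] with a ha
    cases hg : g a with
    | num l => exact ⟨l, rfl⟩
    | tree l => rw [hg] at ha; exact ha.elim
    | hub => rw [hg] at ha; exact ha.elim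
    | dead => rw [hg] at ha; exact ha.elim
  obtain ⟨l, hl⟩ := h1.choice
  exact ⟨l, mk_eq.2 hl⟩

lemma mem_badP (l : ℕ → List Bool) : mk (fun a => .tree (l a)) ∈ badP.{u} ↔
    ∃ k : ℕ, ∀ᶠ a in (UF : Filter ℕ), List.replicate (a - k) false <+: l a := by
  unfold badP
  simp only [Set.mem_ofPred_eq, mk_le, World.tree_le]

lemma badP_down {x y : Star.{u}} (hx : x ∈ badP) (hy : y ≤ x) : y ∈ badP := by
  obtain ⟨k, hk⟩ := hx
  exact ⟨k, hy.trans hk⟩

lemma badP_tr {x : Star.{u}} (hx : x ∈ badP) : starShape.Tr x := by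
  obtain ⟨k, hk⟩ := hx
  refine starShape.tr_down _ _ ?_ hk
  exact (lift1_mk _ _).2 (Eventually.of_forall fun _ => trivial)

lemma badP_regOpen : RegOpen badP.{u} := by
  intro x
  constructor
  · intro h x' hx'
    exact ⟨x', le_rfl, badP_down h hx'⟩
  · intro h
    by_contra hx
    by_cases hTr : starShape.Tr x
    · obtain ⟨g, rfl⟩ := mk_surj x
      obtain ⟨l, hl⟩ := mk_of_isTr ((lift1_mk _ _).1 hTr)
      rw [hl] at hx h
      rw [mem_badP] at hx
      push Not at hx
      obtain ⟨x'', hx'', hP⟩ := h (mk fun a => .tree (l a ++ [true]))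
        ((mk_le _ _).2 (Eventually.of_forall fun a => List.prefix_append _ _))
      obtain ⟨g', rfl⟩ := mk_surj x''
      obtain ⟨l', hl'⟩ := mk_of_isTr ((lift1_mk _ _).1 (badP_tr hP))
      rw [hl'] at hx'' hP
      rw [mem_badP] at hP
      obtain ⟨k, hk⟩ := hP
      rw [mk_le] at hx''
      have h3 := hx k
      obtain ⟨a, ha1, ha2, ha3⟩ := (hk.and (hx''.and h3)).exists
      rw [World.tree_le] at ha2
      rcases List.prefix_or_prefix_of_prefix ha1 ha2 with h4 | h4
      · rw [List.prefix_concat_iff] at h4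
        rcases h4 with h4 | h4
        · have : true ∈ List.replicate (a - k) false := by rw [h4]; simp
          simp at this
        · exact ha3 h4
      · have : true ∈ List.replicate (a - k) false := h4.subset (by simp)
        simp at this
    · obtain ⟨x'', hx'', hP⟩ := h x le_rfl
      obtain rfl := starShape.disc _ _ hTr hx''
      exact hx hP

lemma no_M (z : Star.{u}) : ¬ starShape.M badP z := by
  rintro ⟨hNu, hQ, hmin⟩
  obtain ⟨g, rfl⟩ := mk_surj z
  obtain ⟨w, hw⟩ := mk_of_isNu ((lift1_mk _ _).1 hNu)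
  rw [hw] at hQ hmin
  have h1 : mk (fun a => .tree (w a)) ∈ badP.{u} := by
    refine hQ _ ((srel_mk _ _).2 (Eventually.of_forall fun a => ?_))
      ((lift1_mk _ _).2 (Eventually.of_forall fun _ => trivial))
    exact List.prefix_refl _
  rw [mem_badP] at h1
  obtain ⟨k, hk⟩ := h1
  have hbig : ∀ᶠ a in (UF : Filter ℕ), k < a := by
    have : (UF : Filter ℕ) ≤ atTop := Nat.hyperfilter_le_atTop
    exact this (eventually_gt_atTop k)
  refine hmin (mk fun a => .num (List.replicate (a - (k + 1)) false))
    ((srel_mk _ _).2 ?_) ((lift1_mk _ _).2 (Eventually.of_forall fun _ => trivial)) ?_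
  · filter_upwards [hk, hbig] with a h2 h3
    refine ⟨?_, ?_⟩
    · refine List.IsPrefix.trans ?_ h2
      rw [List.prefix_replicate_iff]
      simp
      omega
    · intro h4
      have := h2.length_le
      rw [← h4] at this
      simp at this
      omega
  · intro y hy hyt
    obtain ⟨f, rfl⟩ := mk_surj y
    obtain ⟨l, hl⟩ := mk_of_isTr ((lift1_mk _ _).1 hyt)
    rw [hl] at hy ⊢
    rw [mem_badP]
    exact ⟨k + 1, (srel_mk _ _).1 hy⟩

lemma star_not_valid {I : Type v} (i : I) : ¬ (starF.{u, v} I).Valid (fPhi i) := by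
  intro h
  obtain ⟨y, hy⟩ := exists_T_of_valid (F := starF.{u, v} I) (i := i) starShape h badP badP_regOpen
    ⟨mk fun a => .tree (List.replicate (a - 0) false), ⟨0, le_rfl⟩,
      (lift1_mk _ _).2 (Eventually.of_forall fun _ => trivial)⟩
  obtain ⟨z, -, hz⟩ := hy y le_rfl
  exact no_M z hz

lemma base_valid {I : Type v} (i : I) : (baseF.{u, v} I).Valid (fPhi i) :=
  valid_of_good (F := baseF.{u, v} I) (i := i) World.shape World.good

/-! ## Łoś -/

/-- The base frame as a first-order structure. -/
@[instance_reducible] noncomputable def baseStr (I : Type v) :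
    ∀ a : ℕ, (pLang I).Structure ((fun _ : ℕ => World.{u}) a) :=
  fun _ => (baseF.{u, v} I).str

/-- The ultrapower structure. -/
@[instance_reducible] noncomputable def ultStr (I : Type v) : (pLang I).Structure Star.{u} :=
  @Ultraproduct.structure ℕ (fun _ => World.{u}) UF (pLang I) (baseStr.{u, v} I)

lemma ult_rel (I : Type v) {n : ℕ} (r : (pLang I).Relations n) (x : Fin n → ℕ → World.{u}) :
    (ultStr.{u, v} I).RelMap r (fun j => mk (x j)) ↔
      ∀ᶠ a in (UF : Filter ℕ), (baseF.{u, v} I).rel r (fun j => x j a) := by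
  exact @relMap_quotient_mk' (pLang I) (ℕ → World.{u})
    ((UF : Filter ℕ).productSetoid (fun _ => World.{u}))
    (@Ultraproduct.setoidPrestructure ℕ (fun _ => World.{u}) UF (pLang I) (baseStr.{u, v} I)) n r x

lemma str_eq (I : Type v) : (starF.{u, v} I).str = ultStr.{u, v} I := by
  refine Structure.ext ?_ ?_
  · funext n f
    exact f.elim
  · funext n r x
    have hx : ∃ g : Fin n → ℕ → World.{u}, x = fun j => mk (g j) := by
      choose g hg using fun j => mk_surj (x j)
      exact ⟨g, funext fun j => (hg j).symm⟩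
    obtain ⟨g, rfl⟩ := hx
    apply propext
    refine Iff.trans ?_ (ult_rel I r g).symm
    cases r with
    | le => exact mk_le (g 0) (g 1)
    | r i => exact srel_mk (g 0) (g 1)

lemma star_models {I : Type v} (β : (pLang I).Sentence) :
    (starF.{u, v} I).Models β ↔ (baseF.{u, v} I).Models β := by
  unfold PFrame.Models
  rw [str_eq]
  have h := @Ultraproduct.sentence_realize ℕ (fun _ => World.{u}) UF (pLang I) (baseStr.{u, v} I)
    (fun _ => ⟨World.hub⟩) β
  refine h.trans ⟨fun h => ?_, fun h => Eventually.of_forall fun _ => h⟩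
  obtain ⟨a, ha⟩ := h.exists
  exact ha

/-- **Negative answer to Q1, for every nonempty index set.**  There is a modal formula `φ` such that
some first-order sentence in the accessibility relations defines validity of `φ` on Kripke frames,
but no first-order sentence in the refinement order and the accessibility relations defines validity
of `φ` on full possibility frames. -/
theorem result (I : Type v) [Nonempty I] :
    ∃ φ : Fml I,
      (∃ α : (kLang I).Sentence, ∀ K : KFrame.{u, v} I, K.Valid φ ↔ K.Models α) ∧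
      ¬ ∃ β : (pLang I).Sentence, ∀ F : PFrame.{u, v} I, F.Valid φ ↔ F.Models β := by
  obtain ⟨i⟩ := ‹Nonempty I›
  refine ⟨fPhi i, ⟨oAlpha i, fun K => kripke_iff i K⟩, ?_⟩
  rintro ⟨β, hβ⟩
  exact star_not_valid i ((hβ _).2 ((star_models β).2 ((hβ _).1 (base_valid i))))

end Pool.Agent.Results.MP_156542_lc.NoTransfer
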